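import Pool.Agent.Lib_MP_6db0a9_an.StmtMain

/-!
Pure `m`-th derivatives give equivalent quasi-norms on Besov, Triebel-Lizorkin and Morrey type
spaces on special and bounded Lipschitz domains (positive answer to Q1). The definitions are in
`Pool/Agent/Lib_MP_6db0a9_an/Stmt.lean`.
-/

open MeasureTheory SchwartzMap
open scoped ENNReal NNReal

namespace Pool.Agent.Results.MP_6db0a9_an.PureDerivatives

open MP6db0a9.Stmt

/-- Positive answer to Q1, for all three scales, all `0 < p, q ≤ ∞` (`p < ∞` for `𝓕`), all real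
`s`, all `τ ≥ 0`, all `m ≥ 1`, and all special or bounded Lipschitz domains `Ω` of `ℝⁿ`,
`n = k + 1`. -/
theorem result {k : ℕ} (A : Scale) {p q : ℝ≥0∞} {s τ : ℝ} (hp : 0 < p) (hq : 0 < q)
    (hτ : 0 ≤ τ) (hAp : A = Scale.F → p ≠ ⊤) {a : ℝ}
    {L : ℕ → 𝓢(EuclideanSpace ℝ (Fin (k + 1)), ℂ)} (h : IsLP a L)
    (m : ℕ) (_hm : 1 ≤ m) {Ω : Set (EuclideanSpace ℝ (Fin (k + 1)))}
    (hΩ : IsSpecialLipschitz Ω ∨ IsBoundedLipschitz Ω) :
    ∃ C : ℝ≥0, 0 < C ∧ ∀ u : 𝓢'(EuclideanSpace ℝ (Fin (k + 1)), ℂ),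
      domNorm Ω A p q s τ L u ≤
        C * (domNorm Ω A p q (s - m) τ L u + ∑ i, domNorm Ω A p q (s - m) τ L (pd i m u)) :=
  main'' A hp hq hτ hAp h m hΩ

end Pool.Agent.Results.MP_6db0a9_an.PureDerivatives
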